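import Pool.Agent.H61.KV.TS

/-!
# Kuiper board KV, module STQ: the slices over interior points of the base
-/

open Topology Set
open Pool.Agent.H61.KV

namespace Pool.Agent.H47.KV.STQ

theorem convex_pz (C : Set (E4 × E5)) : Convex ℝ {z : E4 | Pz C z} := by
  intro x hx y hy α β hα hβ hαβ a ha hne
  have h1 := hx a ha hne
  have h2 := hy a ha hne
  rw [inner_add_left, real_inner_smul_left, real_inner_smul_left]
  rcases eq_or_lt_of_le hα with h3 | h3
  · have h4 : β = 1 := by linarith
    rw [← h3, h4]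
    linarith
  · have h5 := mul_pos h3 h1
    have h6 := mul_nonneg hβ h2.le
    linarith

theorem pf_STQ (h1 : T_IND) (h2 : T_POS) (h3 : T_CNC) : T_STQ := by
  intro m p hS b hb
  have hC := (h3 (E4 × E5) m hS.cfg).1
  obtain ⟨_, ⟨z, hz, hz0⟩, hbi⟩ := h2 (Cn m) hC
  have hrange : ∀ z' ∈ convexHull ℝ (range z), Pz (Cn m) z' := by
    have h4 : convexHull ℝ (range z) ⊆ {z : E4 | Pz (Cn m) z} := by
      apply convexHull_min _ (convex_pz (Cn m))
      rintro _ ⟨i, rfl⟩
      exact hz i
    exact h4
  obtain ⟨g, hg⟩ := h1 m p hS b hb (convexHull ℝ (range z))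
    ((finite_range z).isCompact_convexHull ℝ) (convex_convexHull ℝ _) hrange
  have hgi : ∀ i, Min (Cn m) (z i) g b := fun i => hg (z i)
    (subset_convexHull ℝ _ (mem_range_self i))
  have hmin : ∀ z₀, Pz (Cn m) z₀ → Min (Cn m) z₀ g b := by
    intro z₀ hz₀
    have hrange' : ∀ z' ∈ convexHull ℝ (insert z₀ (range z)), Pz (Cn m) z' := by
      have h4 : convexHull ℝ (insert z₀ (range z)) ⊆ {z : E4 | Pz (Cn m) z} := by
        apply convexHull_min _ (convex_pz (Cn m))
        rintro z' (rfl | ⟨i, rfl⟩)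
        · exact hz₀
        · exact hz i
      exact h4
    obtain ⟨g', hg'⟩ := h1 m p hS b hb (convexHull ℝ (insert z₀ (range z)))
      (((finite_range z).insert z₀).isCompact_convexHull ℝ) (convex_convexHull ℝ _) hrange'
    have h5 : g - g' = 0 := by
      apply hz0
      intro i
      have h6 := hg' (z i) (subset_convexHull ℝ _ (mem_insert_of_mem _ (mem_range_self i)))
      have h7 := (hgi i).2 g' h6.1
      have h8 := h6.2 g (hgi i).1
      rw [inner_sub_right]
      linarith
    have h6 := hg' z₀ (subset_convexHull ℝ _ (mem_insert _ _))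
    rw [sub_eq_zero] at h5
    rw [h5]
    exact h6
  refine ⟨g, fun a => ⟨fun ha => ?_, fun ha => ?_⟩⟩
  · apply hbi
    intro z₀ hz₀
    have h4 := (hmin z₀ hz₀).2 a ha
    rw [inner_sub_right]
    linarith
  · have h4 := hC.add _ ha _ (hgi 0).1
    rw [Prod.mk_add_mk, sub_add_cancel, zero_add] at h4
    exact h4

end Pool.Agent.H47.KV.STQ
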