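import Pool.Agent.H61.KV.TE
import Pool.Agent.H61.KV.TS

/-!
# Kuiper board KV, module SUM: the spans of three minimal faces in general position
-/

open Topology Set
open Pool.Agent.H61.KV

namespace Pool.Agent.H47.KV.SUM

open Module

theorem lin {V : Type} [NormedAddCommGroup V] [NormedSpace ℝ V] [FiniteDimensional ℝ V]
    (hV : finrank ℝ V = 9) (S S' S'' : Submodule ℝ V) (t t₂ γ : V) (h1 : finrank ℝ S = 4)
    (h2 : finrank ℝ S' = 4) (h3 : finrank ℝ S'' = 4)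
    (h4 : ∀ v ∈ S, v ∈ S' → ∃ c : ℝ, v = c • t) (h5 : ∀ v ∈ S, v ∈ S'' → ∃ c : ℝ, v = c • t₂)
    (h6 : ∀ v ∈ S', ∀ v₂ ∈ S'', v - v₂ ∈ S → ∃ c : ℝ, v - c • γ ∈ S) :
    (S ⊔ S') ⊔ (S ⊔ S'') = ⊤ := by
  have hsp : ∀ x : V, finrank ℝ (Submodule.span ℝ {x}) ≤ 1 := fun x =>
    (finrank_span_le_card ({x} : Set V)).trans (by simp)
  have a1 := Submodule.finrank_sup_add_finrank_inf_eq S S'
  have a2 := Submodule.finrank_sup_add_finrank_inf_eq S S''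
  have a3 := Submodule.finrank_sup_add_finrank_inf_eq (S ⊔ S') (S ⊔ S'')
  have a4 := Submodule.finrank_sup_add_finrank_inf_eq S (Submodule.span ℝ {γ})
  have b1 : S ⊓ S' ≤ Submodule.span ℝ {t} := by
    rintro v ⟨hv, hv'⟩
    obtain ⟨c, hc⟩ := h4 v hv hv'
    rw [hc]
    exact Submodule.smul_mem _ c (Submodule.mem_span_singleton_self t)
  have b2 : S ⊓ S'' ≤ Submodule.span ℝ {t₂} := by
    rintro v ⟨hv, hv'⟩
    obtain ⟨c, hc⟩ := h5 v hv hv'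
    rw [hc]
    exact Submodule.smul_mem _ c (Submodule.mem_span_singleton_self t₂)
  have b3 : (S ⊔ S') ⊓ (S ⊔ S'') ≤ S ⊔ Submodule.span ℝ {γ} := by
    rintro w ⟨hw, hw'⟩
    obtain ⟨s, hs, v, hv, rfl⟩ := Submodule.mem_sup.1 hw
    obtain ⟨s₂, hs₂, v₂, hv₂, he⟩ := Submodule.mem_sup.1 hw'
    have h7 : v - v₂ = s₂ - s := by
      rw [sub_eq_sub_iff_add_eq_add, add_comm v s, ← he]
    obtain ⟨c, hc⟩ := h6 v hv v₂ hv₂ (by rw [h7]; exact S.sub_mem hs₂ hs)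
    rw [Submodule.mem_sup]
    refine ⟨s + (v - c • γ), S.add_mem hs hc, c • γ,
      Submodule.smul_mem _ c (Submodule.mem_span_singleton_self γ), ?_⟩
    abel
  have c1 := (Submodule.finrank_mono b1).trans (hsp t)
  have c2 := (Submodule.finrank_mono b2).trans (hsp t₂)
  have c3 := Submodule.finrank_mono b3
  have c4 := hsp γ
  have c5 : finrank ℝ ((S ⊔ S') ⊔ (S ⊔ S'') : Submodule ℝ V) ≤ finrank ℝ V :=
    Submodule.finrank_le _
  apply Submodule.eq_top_of_finrank_eq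
  omega

theorem pf_SUM (h1 : T_FCB) (h2 : T_CNC) (h3 : T_ST) (h6 : T_FTR) (h7 : T_EBD) (h8 : T_CMN)
    (h10 : T_P1N) (h12 : T_SPX) (h14 : T_SPP) (h16 : T_RK4) : T_SUM := by
  intro V _ _ _ m hm hn p γ t t₂ hp hγ hov ht ht₂ htt κ k1 k2 k3
  obtain ⟨hC, hspan, _⟩ := h2 V m hm
  have hpC : p ∈ Cn m := hp.1
  have hfcc : ∀ q ∈ Cn m, IsCC (Fc (Cn m) q) := fun q hq => (h1 V (Cn m) q hC hq).2.1
  have hγC : γ ∈ Cn m := by
    have h20 : γ - γ ∈ Fc (Cn m) p := by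
      rw [sub_self]
      exact (hfcc p hpC).zero
    exact ((hγ γ).2 h20).1
  have r1 := (h10 V m hm p hp).1
  have r2 := (h10 V m hm (γ + t) (h16 V m hm hn p γ t hp hγ hov ht)).1
  have r3 := (h10 V m hm (γ + t₂) (h16 V m hm hn p γ t₂ hp hγ hov ht₂)).1
  have hγ0 : γ ≠ 0 := by
    rintro rfl
    have hne : Sp (Cn m) p ≠ ⊤ := by
      intro h
      rw [h, finrank_top, hm.rank] at r1
      omega
    obtain ⟨ξ, hξ, hξ1, hξ2⟩ := h14 V (Cn m) p hC hspan hpC hne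
    exact hξ (hov ξ hξ1 hξ2 (map_zero ξ))
  have key : ∀ s, Bd (Cn m) p s → ∀ v ∈ Sp (Cn m) p, v ∈ Sp (Cn m) (γ + s) →
      ∃ c : ℝ, v = c • s := by
    intro s hs
    have hsC : s ∈ Cn m := hs.1.1
    apply h12 V (Cn m) p (γ + s) s hC hpC (hC.add _ hγC _ hsC)
    · exact fun q hq => h3 V m hm p hp q hq
    · intro r hr hr'
      have h21 := (h6 V (Cn m) p γ s hC hpC hγC hs.1 hγ).2.2 r hr hr'
      exact (h7 V m hm hn p s hp hs).2.2 r h21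
  have htop := lin hm.rank (Sp (Cn m) p) (Sp (Cn m) (γ + t)) (Sp (Cn m) (γ + t₂)) t t₂ γ r1 r2 r3
    (key t ht) (key t₂ ht₂)
    (fun v hv v₂ hv₂ hvv => h8 V m hm hn p γ t t₂ v v₂ hp hγ hγ0 ht ht₂ htt hv hv₂ hvv)
  have hle : (Sp (Cn m) p ⊔ Sp (Cn m) (γ + t)) ⊔ (Sp (Cn m) p ⊔ Sp (Cn m) (γ + t₂)) ≤
      LinearMap.ker κ :=
    sup_le (sup_le (fun v hv => LinearMap.mem_ker.2 (k1 v hv))
      (fun v hv => LinearMap.mem_ker.2 (k2 v hv)))
      (sup_le (fun v hv => LinearMap.mem_ker.2 (k1 v hv))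
        (fun v hv => LinearMap.mem_ker.2 (k3 v hv)))
  rw [htop, top_le_iff] at hle
  exact LinearMap.ker_eq_top.1 hle

end Pool.Agent.H47.KV.SUM
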