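import Pool.Agent.H61.KV.TN

/-!
# Kuiper board KV, module TRA: change of coordinates
-/

open Topology Set
open Pool.Agent.H59 Pool.Agent.H64.LB Pool.Agent.H61.KU
open Pool.Agent.H61.KV

namespace Pool.Agent.H47.KV.TRA

variable {V V' : Type} [NormedAddCommGroup V] [NormedSpace ℝ V]
  [NormedAddCommGroup V'] [NormedSpace ℝ V']

theorem range_eq (m : PN 2 → V) (L : V ≃L[ℝ] V') :
    range (fun x => L (m x)) = (L : V →ₗ[ℝ] V') '' range m := by
  rw [← range_comp]
  rfl

theorem cn_iff (m : PN 2 → V) (L : V ≃L[ℝ] V') (p : V) :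
    L p ∈ Cn (fun x => L (m x)) ↔ p ∈ Cn m := by
  unfold Cn
  rw [range_eq, ← LinearMap.image_convexHull]
  constructor
  · rintro ⟨c, q, hc, ⟨q', hq', rfl⟩, he⟩
    refine ⟨c, q', hc, hq', L.injective ?_⟩
    rw [map_smul]
    exact he
  · rintro ⟨c, q, hc, hq, rfl⟩
    exact ⟨c, L q, hc, ⟨q, hq, rfl⟩, map_smul L c q⟩

theorem mh_iff (m : PN 2 → V) (L : V ≃L[ℝ] V') (p : V) :
    L p ∈ Mh (fun x => L (m x)) ↔ p ∈ Mh m := by
  constructor
  · rintro ⟨c, x, hc, he⟩
    refine ⟨c, x, hc, L.injective ?_⟩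
    rw [map_smul]
    exact he
  · rintro ⟨c, x, hc, rfl⟩
    exact ⟨c, x, hc, map_smul L c (m x)⟩

theorem fc_iff (m : PN 2 → V) (L : V ≃L[ℝ] V') (p q : V) :
    L q ∈ Fc (Cn (fun x => L (m x))) (L p) ↔ q ∈ Fc (Cn m) p := by
  have h : ∀ c : ℝ, c • L p - L q = L (c • p - q) := fun c => by rw [map_sub, map_smul]
  constructor
  · rintro ⟨h1, c, hc, h2⟩
    rw [h, cn_iff] at h2
    exact ⟨(cn_iff m L q).1 h1, c, hc, h2⟩
  · rintro ⟨h1, c, hc, h2⟩
    refine ⟨(cn_iff m L q).2 h1, c, hc, ?_⟩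
    rw [h, cn_iff]
    exact h2

theorem fc_eq (m : PN 2 → V) (L : V ≃L[ℝ] V') (p : V) :
    Fc (Cn (fun x => L (m x))) (L p) = (L : V →ₗ[ℝ] V') '' Fc (Cn m) p := by
  ext q'
  obtain ⟨q, rfl⟩ := L.surjective q'
  rw [fc_iff]
  constructor
  · intro h
    exact ⟨q, h, rfl⟩
  · rintro ⟨r, hr, he⟩
    have h1 : r = q := L.injective he
    rw [← h1]
    exact hr

theorem sp_iff (m : PN 2 → V) (L : V ≃L[ℝ] V') (p v : V) :
    L v ∈ Sp (Cn (fun x => L (m x))) (L p) ↔ v ∈ Sp (Cn m) p := by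
  unfold Sp
  rw [fc_eq, ← Submodule.map_span]
  constructor
  · rintro ⟨w, hw, he⟩
    have h1 : w = v := L.injective he
    rw [← h1]
    exact hw
  · intro h
    exact ⟨v, h, rfl⟩

theorem pf_TRA : T_TRA := by
  intro V V' _ _ _ _ _ _ m L
  refine ⟨?_, ?_, cn_iff m L, mh_iff m L, fc_iff m L, sp_iff m L, ?_⟩
  · intro hm
    obtain ⟨e, he⟩ := hm.pos
    refine
      { cont := L.continuous.comp hm.cont
        pos := ⟨e.comp (L.symm : V' →ₗ[ℝ] V), ?_⟩
        inj := ?_
        rank := ?_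
        span := ?_
        ot := ?_ }
    · intro x
      have h1 : (e.comp (L.symm : V' →ₗ[ℝ] V)) (L (m x)) = e (m x) := by
        change e (L.symm (L (m x))) = e (m x)
        rw [L.symm_apply_apply]
      rw [h1]
      exact he x
    · intro x y c hc hxy
      apply hm.inj x y c hc
      apply L.injective
      rw [map_smul]
      exact hxy
    · rw [← hm.rank]
      exact L.toLinearEquiv.finrank_eq.symm
    · rw [range_eq, ← Submodule.map_span, hm.span, Submodule.map_top, LinearMap.range_eq_top]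
      exact L.surjective
    · intro ξ i
      exact hm.ot (ξ.comp (L : V →ₗ[ℝ] V')) i
  · intro hn x y hxy
    obtain ⟨a, b, ha, hb, hab⟩ := hn x y hxy
    refine ⟨a, b, ha, hb, ?_⟩
    have h1 : a • L (m x) + b • L (m y) = L (a • m x + b • m y) := by
      rw [map_add, map_smul, map_smul]
    rw [h1, mh_iff]
    exact hab
  · intro p
    constructor
    · rintro ⟨h1, h2, h3⟩
      refine ⟨(cn_iff m L p).1 h1, fun h => h2 ((mh_iff m L p).2 h), ?_⟩
      intro q hq
      rcases h3 (L q) ((fc_iff m L p q).2 hq) with h4 | h4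
      · left
        exact (fc_iff m L q p).1 h4
      · right
        intro r hr
        exact (mh_iff m L r).1 (h4 ((fc_iff m L q r).2 hr))
    · rintro ⟨h1, h2, h3⟩
      refine ⟨(cn_iff m L p).2 h1, fun h => h2 ((mh_iff m L p).1 h), ?_⟩
      intro q' hq'
      obtain ⟨q, rfl⟩ := L.surjective q'
      rcases h3 q ((fc_iff m L p q).1 hq') with h4 | h4
      · left
        exact (fc_iff m L q p).2 h4
      · right
        intro r' hr'
        obtain ⟨r, rfl⟩ := L.surjective r'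
        exact (mh_iff m L r).2 (h4 ((fc_iff m L q r).1 hr'))

end Pool.Agent.H47.KV.TRA
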